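import Mathlib
import Pool.Agent.Results.MP_bba144_nt.SquaredTrinomialSums
import Pool.Agent.R499.Linear

/-!
# Q2: weighted sums of squares of generalized central trinomial coefficients modulo `p²`

With `U_n = ∑_{j<n} (b-2c)^{n-1-j} T_j` one has the closed form
`b ∑_{j<n} (8cj+4c+b) T_j² (b-2c)^{2(n-1-j)} = 2bc U_n² + (b+2c) n T_n T_{n-1}`, and
`n T_n = n (b+2c) T_{n-1} - 2c U_n`.
-/

set_option autoImplicit false

namespace Pool.Agent.Results.MP_bba144_nt.ClosedFormModSquare

open Finset Polynomial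
open Pool.Agent.Results.MP_bba144_nt.SquaredTrinomialSums (A A_zero A_succ sh th cb cb_rec th_sh_cb)

section general

variable {R : Type*} [CommRing R] (β c : R)

lemma A_add (x y : R) (j : ℕ) (F G : ℕ → R) :
    A β c j (fun k => x * F k + y * G k) = x * A β c j F + y * A β c j G := by
  unfold A
  rw [mul_sum, mul_sum, ← sum_add_distrib]
  apply sum_congr rfl
  intro k _
  ring

/-- the Euler operator -/
lemma A_th (j : ℕ) : ∀ F : ℕ → R, A β c (j + 1) (th F) = ((j : R) + 1) * (c * A β c j (sh F)) := by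
  induction j with
  | zero =>
    intro F
    rw [A_succ, A_zero, A_zero, A_zero]
    simp [sh, th]
  | succ j ih =>
    intro F
    have e : sh (th F) = fun k => (1 : R) * th (sh F) k + 1 * sh F k := by
      funext k
      simp only [sh, th]
      push_cast
      ring
    rw [A_succ, ih, e, A_add, ih, A_succ β c j (sh F)]
    push_cast
    ring

/-- the three-term recurrence -/
lemma rec3 (m : ℕ) : ((m : R) + 2) * A β c (m + 2) cb
    = (2 * (m : R) + 3) * (β + 2 * c) * A β c (m + 1) cb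
      - ((m : R) + 1) * β * (β + 4 * c) * A β c m cb := by
  have h1 := A_th β c m (sh (cb : ℕ → R))
  have h2 := A_th β c m (cb : ℕ → R)
  rw [th_sh_cb, A_add, A_add, h2] at h1
  have a1 := A_succ β c m (cb : ℕ → R)
  have a2 := A_succ β c (m + 1) (cb : ℕ → R)
  have a3 := A_succ β c m (sh (cb : ℕ → R))
  rw [show m + 1 + 1 = m + 2 by ring] at a2
  linear_combination (-c) * h1 + ((m : R) + 2) * a2 + (-4 * ((m : R) + 1) * c - ((m : R) + 1) * β) * a1 + ((m:R)+1) * c * a3

/-- the partial sums `U_n = ∑_{j<n} β^{n-1-j} T_j` -/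
def U : ℕ → R
  | 0 => 0
  | n + 1 => A β c n cb + β * U n

/-- `(n+1) T_{n+1} = (n+1) (b+2c) T_n - 2c U_{n+1}`, `b = β + 2c` -/
lemma U_rel (n : ℕ) : ((n : R) + 1) * A β c (n + 1) cb
    = ((n : R) + 1) * (β + 4 * c) * A β c n cb - 2 * c * U β c (n + 1) := by
  induction n with
  | zero =>
    rw [A_succ, A_zero, A_zero]
    simp only [U, A_zero, sh, cb]
    norm_num
    ring
  | succ n ih =>
    have h := rec3 β c n
    have e : U β c (n + 1 + 1) = A β c (n + 1) cb + β * U β c (n + 1) := rfl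
    rw [e, show n + 1 + 1 = n + 2 by ring]
    push_cast
    linear_combination h + β * ih

/-- the weighted sum of squares -/
def Sw (n : ℕ) : R :=
  ∑ j ∈ range n, (8 * c * (j : R) + 6 * c + β) * (A β c j cb) ^ 2 * β ^ (2 * (n - 1 - j))

lemma Sw_succ (n : ℕ) : Sw β c (n + 1)
    = β ^ 2 * Sw β c n + (8 * c * (n : R) + 6 * c + β) * (A β c n cb) ^ 2 := by
  unfold Sw
  rw [sum_range_succ, mul_sum, show n + 1 - 1 - n = 0 by omega, mul_zero, pow_zero, mul_one]
  congr 1
  apply sum_congr rfl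
  intro j hj
  have := mem_range.mp hj
  rw [show 2 * (n + 1 - 1 - j) = 2 * (n - 1 - j) + 2 by omega, pow_add]
  ring

/-- the closed form -/
theorem closed (n : ℕ) : (β + 2 * c) * Sw β c (n + 1)
    = 2 * (β + 2 * c) * c * U β c (n + 1) ^ 2
      + (β + 4 * c) * (((n : R) + 1) * A β c (n + 1) cb) * A β c n cb := by
  induction n with
  | zero =>
    have h := U_rel β c 0
    rw [Sw_succ]
    have e : U β c (0 + 1) = A β c 0 cb + β * U β c 0 := rfl
    have e0 : U β c 0 = 0 := rfl
    rw [e, e0, mul_zero, add_zero] at h ⊢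
    simp only [Sw, range_zero, sum_empty, mul_zero, zero_add, Nat.cast_zero] at h ⊢
    rw [h]
    ring
  | succ n ih =>
    have h := U_rel β c n
    have h' := U_rel β c (n + 1)
    rw [Sw_succ]
    have e : U β c (n + 1 + 1) = A β c (n + 1) cb + β * U β c (n + 1) := rfl
    rw [h', e]
    rw [mul_add, mul_left_comm, ih]
    push_cast
    generalize A β c (n + 1) cb = x at *
    generalize A β c n cb = y at *
    generalize U β c (n + 1) = u at *
    linear_combination (β ^ 2 * x) * (-h)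

/-- Catalan numbers -/
def cat : ℕ → R := fun k => (catalan k : R)

lemma cb_eq_cat : (cb : ℕ → R) = fun k => (1 : R) * th cat k + 1 * cat k := by
  funext k
  have h := succ_mul_catalan_eq_centralBinom k
  have h' := congrArg (fun z : ℕ => (z : R)) h
  simp only [th, cat, cb, Nat.centralBinom] at h' ⊢
  push_cast at h'
  linear_combination -h'

/-- `U_n` is `n` times a combination of Catalan numbers -/
lemma U_eq (n : ℕ) : U β c (n + 1) = ((n : R) + 1) * A β c n cat := by
  induction n with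
  | zero =>
    simp only [U, A_zero, cb, cat]
    simp
  | succ n ih =>
    have e : U β c (n + 1 + 1) = A β c (n + 1) cb + β * U β c (n + 1) := rfl
    rw [e, ih, cb_eq_cat, A_add, A_th, A_succ β c n cat]
    push_cast
    ring

end general

section modp

variable {p : ℕ} [Fact p.Prime]

lemma A_p (β c : ZMod p) : A β c p cb = β + 2 * c := by
  have hp : 0 < p := (Fact.out : p.Prime).pos
  unfold A
  rw [sum_range_succ]
  have h0 : ∑ k ∈ range p, (p.choose k : ZMod p) * β ^ (p - k) * c ^ k * cb k = β ^ p := by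
    rw [sum_eq_single 0]
    · simp [cb]
    · intro k hk hk0
      have hk' := mem_range.mp hk
      have h1 : p ∣ p.choose k := (Fact.out : p.Prime).dvd_choose_self hk0 hk'
      rw [(ZMod.natCast_eq_zero_iff _ _).mpr h1]
      ring
    · intro h
      exact absurd (mem_range.mpr hp) h
  have hcb : (cb p : ZMod p) = 2 := by
    have h2 : ((2 * p).choose p : ZMod p) = 2 := by
      have h3 := Choose.choose_modEq_choose_mod_mul_choose_div_nat (n := 2 * p) (k := p) (p := p)
      have h4 : ((2 * p).choose p : ZMod p) = (((2 * p % p).choose (p % p) * (2 * p / p).choose (p / p) : ℕ) : ZMod p) :=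
        (ZMod.natCast_eq_natCast_iff _ _ _).mpr h3
      rw [h4, Nat.mul_mod_left, Nat.mod_self, Nat.mul_div_cancel _ hp, Nat.div_self hp]
      norm_num
    simpa [cb] using h2
  rw [h0, hcb, ZMod.pow_card, ZMod.pow_card]
  simp
  ring

lemma coef (h : ℕ) (hh : p = 2 * h + 1) (k : ℕ) (hk : k < p) :
    (((2 * h).choose k : ZMod p)) * cb k = 4 ^ k * (h.choose k : ZMod p) := by
  have h2h : (2 : ZMod p) * (h : ZMod p) = -1 := by
    have h1 : ((2 * h + 1 : ℕ) : ZMod p) = 0 := by
      rw [ZMod.natCast_eq_zero_iff, ← hh]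
    push_cast at h1
    linear_combination h1
  induction k with
  | zero => simp [cb]
  | succ k ih =>
    have ih' := ih (by omega)
    have hk1 : ((k : ZMod p) + 1) ≠ 0 := by
      have : ((k + 1 : ℕ) : ZMod p) ≠ 0 := by
        rw [Ne, ZMod.natCast_eq_zero_iff]
        intro hd
        exact absurd (Nat.le_of_dvd (by omega) hd) (by omega)
      push_cast at this
      exact this
    have a1 : ((k : ZMod p) + 1) * ((2 * h).choose (k + 1) : ZMod p)
        = (2 * (h : ZMod p) - k) * ((2 * h).choose k : ZMod p) := by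
      have := congrArg (fun z : ℤ => (z : ZMod p)) (Pool.Agent.R499.Linear.ch_rel (2 * h) k)
      push_cast at this
      exact this
    have a2 := cb_rec (R := ZMod p) k
    have a3 : ((k : ZMod p) + 1) * (h.choose (k + 1) : ZMod p)
        = ((h : ZMod p) - k) * (h.choose k : ZMod p) := by
      have := congrArg (fun z : ℤ => (z : ZMod p)) (Pool.Agent.R499.Linear.ch_rel h k)
      push_cast at this
      exact this
    apply mul_left_cancel₀ (pow_ne_zero 2 hk1)
    generalize ((2 * h).choose (k + 1) : ZMod p) = u at *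
    generalize ((2 * h).choose k : ZMod p) = w at *
    generalize (cb (k + 1) : ZMod p) = x at *
    generalize (cb k : ZMod p) = y at *
    generalize (h.choose (k + 1) : ZMod p) = v at *
    generalize (h.choose k : ZMod p) = z at *
    rw [pow_succ (4 : ZMod p)]
    linear_combination ((k : ZMod p) + 1) * x * a1 + (2 * (h : ZMod p) - k) * w * a2
      + (2 * (h : ZMod p) - k) * 2 * (2 * (k : ZMod p) + 1) * ih'
      - ((k : ZMod p) + 1) * 4 * 4 ^ k * a3 + 4 ^ k * z * 2 * (k : ZMod p) * h2h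

lemma A_pred (β c : ZMod p) (h : ℕ) (hh : p = 2 * h + 1) :
    A β c (2 * h) cb = (β * (β + 4 * c)) ^ h := by
  unfold A
  have h1 : ∀ k ∈ range (2 * h + 1), ((2 * h).choose k : ZMod p) * β ^ (2 * h - k) * c ^ k * cb k
      = β ^ h * (if k ≤ h then (4 * c) ^ k * β ^ (h - k) * (h.choose k : ZMod p) else 0) := by
    intro k hk
    have hk' := mem_range.mp hk
    have := coef h hh k (by omega)
    have e : ((2 * h).choose k : ZMod p) * β ^ (2 * h - k) * c ^ k * cb k
        = (((2 * h).choose k : ZMod p) * cb k) * β ^ (2 * h - k) * c ^ k := by ring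
    rw [e, this]
    split_ifs with hle
    · rw [show 2 * h - k = h + (h - k) by omega, pow_add, mul_pow]
      ring
    · rw [Nat.choose_eq_zero_of_lt (by omega)]
      simp
  rw [sum_congr rfl h1, ← mul_sum, mul_pow]
  congr 1
  rw [add_comm β (4 * c), add_pow, ← sum_filter]
  have e : (range (2 * h + 1)).filter (fun k => k ≤ h) = range (h + 1) := by
    ext k
    simp only [mem_filter, mem_range]
    omega
  rw [e]

end modp

/-- `T_m(b,c)`: the coefficient of `x^m` in `(x² + b x + c)^m`. -/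
noncomputable def T (b c : ℤ) (m : ℕ) : ℤ := ((X ^ 2 + C b * X + C c) ^ m : ℤ[X]).coeff m

lemma T_eq (b c : ℤ) (m : ℕ) : T b (c ^ 2) m = A (b - 2 * c) c m cb :=
  SquaredTrinomialSums.T_eq b c m

/-- `x ≡ y (mod p²)` in the ring of rationals whose denominator is prime to `p` -/
def CongrSq (p : ℕ) (x y : ℚ) : Prop :=
  ∃ u v : ℤ, ¬ (p : ℤ) ∣ v ∧ (x - y) * v = (p : ℚ) ^ 2 * u

lemma map_A {R S : Type*} [CommRing R] [CommRing S] (f : R →+* S) (β c : R) (j : ℕ) :
    f (A β c j cb) = A (f β) (f c) j cb := by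
  unfold A cb
  simp

/-- the integer form: `∑_{j<p} (8cj+4c+b) T_j² (b-2c)^{2(p-1-j)} ≡ p (b+2c) ((b²-4c²)/p)` -/
lemma integer_form (b c : ℤ) (p : ℕ) [Fact p.Prime] (hp2 : p ≠ 2) (hb : ¬ (p : ℤ) ∣ b) :
    (p : ℤ) ^ 2 ∣ Sw (b - 2 * c) c p - p * (b + 2 * c) * legendreSym p (b ^ 2 - 4 * c ^ 2) := by
  have hp : p.Prime := Fact.out
  obtain ⟨h, hh⟩ : ∃ h, p = 2 * h + 1 := hp.odd_of_ne_two hp2
  -- the closed form at `n = p`
  have h1 := closed (b - 2 * c) c (2 * h)
  rw [U_eq] at h1
  have hp1 : ((2 * h : ℕ) : ℤ) + 1 = (p : ℤ) := by rw [hh]; push_cast; ring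
  rw [hp1, ← hh] at h1
  -- `T_p ≡ b`
  have h2 : (p : ℤ) ∣ A (b - 2 * c) c p cb - b := by
    rw [← ZMod.intCast_zmod_eq_zero_iff_dvd]
    have := map_A (Int.castRingHom (ZMod p)) (b - 2 * c) c p
    rw [A_p] at this
    push_cast
    simp only [eq_intCast] at this
    rw [this]
    push_cast
    ring
  -- `T_{p-1} ≡ (D/p)`
  have h3 : (p : ℤ) ∣ A (b - 2 * c) c (2 * h) cb - legendreSym p (b ^ 2 - 4 * c ^ 2) := by
    rw [← ZMod.intCast_zmod_eq_zero_iff_dvd]
    have := map_A (Int.castRingHom (ZMod p)) (b - 2 * c) c (2 * h)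
    rw [A_pred _ _ h hh] at this
    push_cast
    simp only [eq_intCast] at this
    rw [this, legendreSym.eq_pow, show p / 2 = h by omega]
    push_cast
    rw [show ((b : ZMod p) - 2 * c) * (b - 2 * c + 4 * c) = b ^ 2 - 4 * c ^ 2 by ring]
    ring
  obtain ⟨x, hx⟩ := h2
  obtain ⟨y, hy⟩ := h3
  have hcop : IsCoprime ((p : ℤ) ^ 2) b := by
    apply IsCoprime.pow_left
    rw [(Nat.prime_iff_prime_int.mp hp).coprime_iff_not_dvd]
    exact hb
  apply hcop.dvd_of_dvd_mul_left
  have hx' : A (b - 2 * c) c p cb = b + p * x := by linear_combination hx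
  have hy' : A (b - 2 * c) c (2 * h) cb = legendreSym p (b ^ 2 - 4 * c ^ 2) + p * y := by
    linear_combination hy
  rw [hx', hy'] at h1
  generalize legendreSym p (b ^ 2 - 4 * c ^ 2) = L at *
  generalize A (b - 2 * c) c (2 * h) cat = w at *
  refine ⟨2 * b * c * w ^ 2 + (b + 2 * c) * (b * y + x * L + p * x * y), ?_⟩
  linear_combination h1

/-- **Q2 is true.** -/
theorem result (b c : ℤ) (p : ℕ) [Fact p.Prime] (hp2 : p ≠ 2)
    (hbc : ¬ (p : ℤ) ∣ b * (b - 2 * c)) :
    CongrSq p (∑ j ∈ range p, (8 * (c : ℚ) * (j : ℚ) + 4 * c + b) *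
        ((T b (c ^ 2) j : ℚ) ^ 2 / ((b : ℚ) - 2 * c) ^ (2 * j)))
      ((p : ℚ) * ((b : ℚ) + 2 * c) * (legendreSym p (b ^ 2 - 4 * c ^ 2) : ℚ)) := by
  have hp : p.Prime := Fact.out
  have hpp := Nat.prime_iff_prime_int.mp hp
  have hb : ¬ (p : ℤ) ∣ b := fun h => hbc (Dvd.dvd.mul_right h _)
  have hβ : ¬ (p : ℤ) ∣ (b - 2 * c) := fun h => hbc (Dvd.dvd.mul_left h _)
  have hβ0 : (b : ℚ) - 2 * c ≠ 0 := by
    intro h
    apply hβ
    have : b - 2 * c = 0 := by exact_mod_cast h
    rw [this]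
    exact dvd_zero _
  obtain ⟨u, hu⟩ := integer_form b c p hp2 hb
  -- `β^{2(p-1)} ≡ 1 (mod p)`
  have hfer : (p : ℤ) ∣ (b - 2 * c) ^ (2 * (p - 1)) - 1 := by
    rw [← ZMod.intCast_zmod_eq_zero_iff_dvd]
    push_cast
    have h0 : ((b : ZMod p) - 2 * c) ≠ 0 := by
      intro h
      apply hβ
      rw [← ZMod.intCast_zmod_eq_zero_iff_dvd]
      push_cast
      exact h
    rw [pow_mul', ZMod.pow_card_sub_one_eq_one h0, one_pow, sub_self]
  obtain ⟨w, hw⟩ := hfer
  refine ⟨u - (b + 2 * c) * legendreSym p (b ^ 2 - 4 * c ^ 2) * w, (b - 2 * c) ^ (2 * (p - 1)), ?_, ?_⟩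
  · intro h
    exact hβ (hpp.dvd_of_dvd_pow h)
  · have e1 : (∑ j ∈ range p, (8 * (c : ℚ) * (j : ℚ) + 4 * c + b) *
        ((T b (c ^ 2) j : ℚ) ^ 2 / ((b : ℚ) - 2 * c) ^ (2 * j))) * (((b - 2 * c) ^ (2 * (p - 1)) : ℤ) : ℚ)
        = ((Sw (b - 2 * c) c p : ℤ) : ℚ) := by
      unfold Sw
      rw [sum_mul]
      push_cast
      apply sum_congr rfl
      intro j hj
      have hj' := mem_range.mp hj
      rw [T_eq, show 2 * (p - 1) = 2 * j + 2 * (p - 1 - j) by omega, pow_add]
      have hB := pow_ne_zero (2 * j) hβ0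
      generalize ((b : ℚ) - 2 * c) ^ (2 * j) = Q at hB ⊢
      generalize ((b : ℚ) - 2 * c) ^ (2 * (p - 1 - j)) = Y
      field_simp
      ring
    rw [sub_mul, e1]
    have hu' := congrArg (fun z : ℤ => (z : ℚ)) hu
    have hw' := congrArg (fun z : ℤ => (z : ℚ)) hw
    push_cast at hu' hw' ⊢
    generalize (legendreSym p (b ^ 2 - 4 * c ^ 2) : ℚ) = L at *
    linear_combination hu' - (p : ℚ) * ((b : ℚ) + 2 * c) * L * hw'

end Pool.Agent.Results.MP_bba144_nt.ClosedFormModSquare
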